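import Pool.Agent.W500.CS.Stm2

/-! # A continuous function with weak Hessian bounded below is semiconvex -/

set_option autoImplicit false

open MeasureTheory Metric Set Filter Topology
open scoped Convolution

namespace W999.CQ

/-- derivative of a convolution along a line -/
theorem hasDerivAt_line (f g : ℂ → ℝ) (hf : LocallyIntegrable f volume) (hg : ContDiff ℝ 1 g)
    (hc : HasCompactSupport g) (x v : ℂ) (t : ℝ) :
    HasDerivAt (fun t : ℝ => (f ⋆[ContinuousLinearMap.lsmul ℝ ℝ, volume] g : ℂ → ℝ) (x + t • v))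
      ((f ⋆[ContinuousLinearMap.lsmul ℝ ℝ, volume] (fun w => fderiv ℝ g w v) : ℂ → ℝ)
        (x + t • v)) t := by
  have h1 := hc.hasFDerivAt_convolution_right (ContinuousLinearMap.lsmul ℝ ℝ) hf hg (x + t • v)
  have h2 : HasDerivAt (fun t : ℝ => x + t • v) v t := by
    have h3 := (hasDerivAt_id t).smul_const v
    simp only [one_smul] at h3
    exact h3.const_add x
  have h4 := h1.comp_hasDerivAt t h2
  have h5 := convolution_precompR_apply (ContinuousLinearMap.lsmul ℝ ℝ) hf (hc.fderiv ℝ)
    (hg.continuous_fderiv one_ne_zero) (x + t • v) v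
  rw [h5] at h4
  exact h4

/-- the derivative in a fixed direction -/
theorem contDiff_dir (g : ℂ → ℝ) (v : ℂ) (n m : ℕ∞) (hg : ContDiff ℝ m g) (hnm : n + 1 ≤ m) :
    ContDiff ℝ n (fun w => fderiv ℝ g w v) := by
  have h1 : ContDiff ℝ n (fderiv ℝ g) := hg.fderiv_right (by exact_mod_cast hnm)
  exact h1.clm_apply contDiff_const

theorem compact_dir (g : ℂ → ℝ) (v : ℂ) (hc : HasCompactSupport g) :
    HasCompactSupport (fun w => fderiv ℝ g w v) := by
  have h1 := hc.fderiv ℝ
  exact h1.comp_left (g := fun A : ℂ →L[ℝ] ℝ => A v) rfl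

/-- second derivative of the reflected function -/
theorem refl_dir (g : ℂ → ℝ) (hg : Differentiable ℝ g) (p v z : ℂ) :
    fderiv ℝ (fun y => g (p - y)) z v = - fderiv ℝ g (p - z) v := by
  have h1 : HasFDerivAt (fun y : ℂ => p - y) (-ContinuousLinearMap.id ℝ ℂ) z :=
    (hasFDerivAt_id z).const_sub p
  have h2 := (hg (p - z)).hasFDerivAt.comp z h1
  have h3 : (fun y => g (p - y)) = g ∘ fun y => p - y := rfl
  rw [h3, h2.fderiv]
  simp

theorem main : Pool.Agent.W500.CS.S_SCX := by
  intro L z₁ r C hr hL hyp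
  refine ⟨convex_ball _ _, ?_⟩
  intro x hx y hy a b ha hb hab
  -- a smaller ball
  obtain ⟨ρ, hρ0, hρr, hxρ, hyρ⟩ : ∃ ρ : ℝ, 0 < ρ ∧ ρ < r ∧ x ∈ ball z₁ ρ ∧ y ∈ ball z₁ ρ := by
    rw [mem_ball] at hx hy
    refine ⟨(max (dist x z₁) (dist y z₁) + r) / 2, ?_, ?_, ?_, ?_⟩
    · have := le_max_left (dist x z₁) (dist y z₁)
      have := dist_nonneg (x := x) (y := z₁)
      linarith
    · have := max_lt hx hy
      linarith
    · have := le_max_left (dist x z₁) (dist y z₁)
      have := max_lt hx hy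
      rw [mem_ball]
      linarith
    · have := le_max_right (dist x z₁) (dist y z₁)
      have := max_lt hx hy
      rw [mem_ball]
      linarith
  set δ : ℝ := (r - ρ) / 2 with hδ
  have hδ0 : 0 < δ := by rw [hδ]; linarith
  have hδr : ρ + δ < r := by rw [hδ]; linarith
  set K : Set ℂ := closedBall z₁ (ρ + δ) with hK
  have hKr : K ⊆ ball z₁ r := closedBall_subset_ball hδr
  set Lt : ℂ → ℝ := K.indicator L with hLt
  have hLi : Integrable Lt volume := by
    have h1 : IntegrableOn L K volume :=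
      (hL.mono hKr).integrableOn_compact (isCompact_closedBall _ _)
    exact h1.integrable_indicator measurableSet_closedBall
  have hLc : ∀ p ∈ ball z₁ ρ, ContinuousAt Lt p ∧ Lt p = L p := by
    intro p hp
    have h1 : ∀ q ∈ ball z₁ ρ, Lt q = L q := fun q hq =>
      indicator_of_mem (ball_subset_closedBall (ball_subset_ball (by linarith) hq)) L
    have h2 : Lt =ᶠ[𝓝 p] L := by
      filter_upwards [isOpen_ball.mem_nhds hp] with q hq
      exact h1 q hq
    have h3 : ContinuousAt L p :=
      hL.continuousAt (isOpen_ball.mem_nhds (ball_subset_ball hρr.le hp))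
    exact ⟨h3.congr h2.symm, h1 p hp⟩
  -- the bump functions
  let φ : ℕ → ContDiffBump (0 : ℂ) := fun n =>
    ⟨δ / (n + 1) / 2, δ / (n + 1), by positivity, by
      have : 0 < δ / ((n : ℝ) + 1) := by positivity
      linarith⟩
  have hφδ : ∀ n, (φ n).rOut ≤ δ := by
    intro n
    change δ / ((n : ℝ) + 1) ≤ δ
    apply div_le_self hδ0.le
    have : (0 : ℝ) ≤ n := Nat.cast_nonneg n
    linarith
  have hφ0 : Tendsto (fun n => (φ n).rOut) atTop (𝓝 0) := by
    change Tendsto (fun n : ℕ => δ / ((n : ℝ) + 1)) atTop (𝓝 0)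
    have h1 := tendsto_one_div_add_atTop_nhds_zero_nat (𝕜 := ℝ)
    have h2 := h1.const_mul δ
    rw [mul_zero] at h2
    refine h2.congr fun n => ?_
    ring
  let G : ℕ → ℂ → ℝ := fun n =>
    (Lt ⋆[ContinuousLinearMap.lsmul ℝ ℝ, volume] ((φ n).normed volume) : ℂ → ℝ)
  have hG : ∀ p ∈ ball z₁ ρ, Tendsto (fun n => G n p) atTop (𝓝 (L p)) := by
    intro p hp
    obtain ⟨h1, h2⟩ := hLc p hp
    have h3 := ContDiffBump.convolution_tendsto_right (μ := (volume : Measure ℂ)) (φ := φ)
      (g := fun _ : ℕ => Lt) (k := fun _ : ℕ => p) (x₀ := p) (z₀ := Lt p) hφ0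
      (Eventually.of_forall fun _ => hLi.aestronglyMeasurable) (h1.tendsto.comp tendsto_snd)
      tendsto_const_nhds
    rw [h2] at h3
    refine h3.congr fun n => ?_
    change _ = (Lt ⋆[ContinuousLinearMap.lsmul ℝ ℝ, volume] ((φ n).normed volume) : ℂ → ℝ) p
    rw [convolution_lsmul, convolution_lsmul_swap]
    refine integral_congr_ae (Eventually.of_forall fun t => ?_)
    exact mul_comm _ _
  -- the second derivative
  have hsecond : ∀ (n : ℕ) (p : ℂ), p ∈ ball z₁ ρ → ∀ v : ℂ, -(C * ‖v‖ ^ 2) ≤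
      (Lt ⋆[ContinuousLinearMap.lsmul ℝ ℝ, volume] (fun w => fderiv ℝ (fun w' =>
        fderiv ℝ ((φ n).normed volume) w' v) w v) : ℂ → ℝ) p := by
    intro n p hp v
    set ψ : ℂ → ℝ := (φ n).normed volume with hψ
    have hψs : ContDiff ℝ 2 ψ := (φ n).contDiff_normed (n := 2)
    have hψd : Differentiable ℝ ψ := hψs.differentiable two_ne_zero
    have hψv : ContDiff ℝ 1 (fun w => fderiv ℝ ψ w v) :=
      contDiff_dir ψ v 1 2 (by exact_mod_cast hψs) (by norm_num)
    have hψvd : Differentiable ℝ (fun w => fderiv ℝ ψ w v) := hψv.differentiable one_ne_zero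
    have hψc : HasCompactSupport ψ := (φ n).hasCompactSupport_normed
    have hts : tsupport ψ = closedBall 0 (φ n).rOut := (φ n).tsupport_normed_eq
    have hts2 : tsupport (fun z => ψ (p - z)) ⊆ K := by
      intro z hz
      have h1 : p - z ∈ tsupport ψ := by
        have h2 := tsupport_comp_subset_preimage (f := fun z : ℂ => p - z) ψ (by fun_prop) hz
        exact h2
      rw [hts, mem_closedBall, dist_zero_right] at h1
      rw [hK, mem_closedBall, dist_eq_norm]
      rw [mem_ball, dist_eq_norm] at hp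
      have h3 : z - z₁ = (p - z₁) - (p - z) := by ring
      rw [h3]
      refine (norm_sub_le _ _).trans ?_
      have := hφδ n
      linarith
    have h1 := hyp v (fun z => ψ (p - z)) (hψs.comp (contDiff_const.sub contDiff_id))
      (hψc.comp_homeomorph (Homeomorph.subLeft p)) (fun z => (φ n).nonneg_normed _)
      (hts2.trans hKr)
    have h2 : ∫ z, ψ (p - z) = 1 := by
      rw [integral_sub_left_eq_self ψ volume p]
      exact (φ n).integral_normed
    rw [h2, mul_one] at h1
    refine h1.trans (le_of_eq ?_)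
    rw [convolution_lsmul]
    refine integral_congr_ae (Eventually.of_forall fun z => ?_)
    have h3 : (fun y => fderiv ℝ (fun z => ψ (p - z)) y v) = fun y => - fderiv ℝ ψ (p - y) v := by
      funext y
      exact refl_dir ψ hψd p v y
    have h4 : fderiv ℝ (fun y => - fderiv ℝ ψ (p - y) v) z v =
        fderiv ℝ (fun w' => fderiv ℝ ψ w' v) (p - z) v := by
      have h5 := refl_dir (fun w => fderiv ℝ ψ w v) hψvd p v z
      have h6 : fderiv ℝ (fun y => - fderiv ℝ ψ (p - y) v) z =
          - fderiv ℝ (fun y => fderiv ℝ ψ (p - y) v) z := fderiv_neg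
      rw [h6, ContinuousLinearMap.neg_apply, h5, neg_neg]
    change L z * fderiv ℝ (fun y => fderiv ℝ (fun z => ψ (p - z)) y v) z v =
      Lt z • fderiv ℝ (fun w' => fderiv ℝ ψ w' v) (p - z) v
    rw [h3, h4, smul_eq_mul]
    by_cases hz : z ∈ K
    · rw [hLt, indicator_of_mem hz]
    · have h7 : fderiv ℝ (fun w' => fderiv ℝ ψ w' v) (p - z) v = 0 := by
        by_contra hne
        have h8 : p - z ∈ Function.support (fderiv ℝ (fun w' => fderiv ℝ ψ w' v)) := by
          intro h9
          rw [h9] at hne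
          exact hne rfl
        have h10 : p - z ∈ tsupport ψ := by
          have h11 := (support_fderiv_subset ℝ (f := fun w' => fderiv ℝ ψ w' v)) h8
          have h12 : tsupport (fun w' => fderiv ℝ ψ w' v) ⊆ tsupport ψ := by
            refine closure_minimal ?_ (isClosed_tsupport _)
            intro w hw
            have h13 : w ∈ Function.support (fderiv ℝ ψ) := by
              intro h14
              apply hw
              change fderiv ℝ ψ w v = 0
              rw [h14]
              rfl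
            exact (support_fderiv_subset ℝ) h13
          exact h12 h11
        apply hz
        rw [hts, mem_closedBall, dist_zero_right] at h10
        rw [hK, mem_closedBall, dist_eq_norm]
        rw [mem_ball, dist_eq_norm] at hp
        have h15 : z - z₁ = (p - z₁) - (p - z) := by ring
        rw [h15]
        refine (norm_sub_le _ _).trans ?_
        have := hφδ n
        linarith
      rw [h7, mul_zero, mul_zero]
  -- convexity of the mollified function along the segment
  have hconv : ∀ n, G n (a • x + b • y) + C / 2 * ‖a • x + b • y‖ ^ 2 ≤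
      a * (G n x + C / 2 * ‖x‖ ^ 2) + b * (G n y + C / 2 * ‖y‖ ^ 2) := by
    intro n
    set v : ℂ := y - x with hv
    set ψ : ℂ → ℝ := (φ n).normed volume with hψ
    have hψs : ContDiff ℝ 2 ψ := (φ n).contDiff_normed (n := 2)
    have hψ1 : ContDiff ℝ 1 ψ := (φ n).contDiff_normed (n := 1)
    have hψv : ContDiff ℝ 1 (fun w => fderiv ℝ ψ w v) :=
      contDiff_dir ψ v 1 2 (by exact_mod_cast hψs) (by norm_num)
    have hψc : HasCompactSupport ψ := (φ n).hasCompactSupport_normed
    have hψvc := compact_dir ψ v hψc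
    have hd1 : ∀ t : ℝ, HasDerivAt (fun t : ℝ => G n (x + t • v))
        ((Lt ⋆[ContinuousLinearMap.lsmul ℝ ℝ, volume] (fun w => fderiv ℝ ψ w v) : ℂ → ℝ)
          (x + t • v)) t := fun t => hasDerivAt_line Lt ψ hLi.locallyIntegrable hψ1 hψc x v t
    have hd2 : ∀ t : ℝ, HasDerivAt (fun t : ℝ =>
        (Lt ⋆[ContinuousLinearMap.lsmul ℝ ℝ, volume] (fun w => fderiv ℝ ψ w v) : ℂ → ℝ)
          (x + t • v))
        ((Lt ⋆[ContinuousLinearMap.lsmul ℝ ℝ, volume] (fun w => fderiv ℝ (fun w' =>
          fderiv ℝ ψ w' v) w v) : ℂ → ℝ) (x + t • v)) t := fun t =>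
      hasDerivAt_line Lt _ hLi.locallyIntegrable hψv hψvc x v t
    -- the quadratic part
    have hq : ∀ t : ℝ, ‖x + t • v‖ ^ 2 = ‖x‖ ^ 2 + 2 * t * inner ℝ x v + t ^ 2 * ‖v‖ ^ 2 := by
      intro t
      rw [norm_add_sq_real, inner_smul_right, norm_smul, mul_pow, Real.norm_eq_abs, sq_abs]
      ring
    have hqd1 : ∀ t : ℝ, HasDerivAt (fun t : ℝ => C / 2 * ‖x + t • v‖ ^ 2)
        (C / 2 * (2 * inner ℝ x v + 2 * t * ‖v‖ ^ 2)) t := by
      intro t
      have h1 : HasDerivAt (fun t : ℝ => C / 2 * (‖x‖ ^ 2 + 2 * t * inner ℝ x v + t ^ 2 * ‖v‖ ^ 2))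
          (C / 2 * (2 * inner ℝ x v + 2 * t * ‖v‖ ^ 2)) t := by
        have h2 : HasDerivAt (fun t : ℝ => 2 * t * inner ℝ x v) (2 * inner ℝ x v) t := by
          have := ((hasDerivAt_id t).const_mul 2).mul_const (inner ℝ x v)
          simpa using this
        have h3 : HasDerivAt (fun t : ℝ => t ^ 2 * ‖v‖ ^ 2) (2 * t * ‖v‖ ^ 2) t := by
          have := ((hasDerivAt_pow 2 t)).mul_const (‖v‖ ^ 2)
          simpa using this
        exact ((h2.const_add _).add h3).const_mul _
      exact h1.congr_of_eventuallyEq (Eventually.of_forall fun s => by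
        change C / 2 * ‖x + s • v‖ ^ 2 = _
        rw [hq])
    have hqd2 : ∀ t : ℝ, HasDerivAt (fun t : ℝ => C / 2 * (2 * inner ℝ x v + 2 * t * ‖v‖ ^ 2))
        (C * ‖v‖ ^ 2) t := by
      intro t
      have h2 : HasDerivAt (fun t : ℝ => 2 * t * ‖v‖ ^ 2) (2 * ‖v‖ ^ 2) t := by
        have := ((hasDerivAt_id t).const_mul 2).mul_const (‖v‖ ^ 2)
        simpa using this
      have h3 := (h2.const_add (2 * inner ℝ x v)).const_mul (C / 2)
      have h4 : C / 2 * (2 * ‖v‖ ^ 2) = C * ‖v‖ ^ 2 := by ring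
      rw [h4] at h3
      exact h3
    have hcx : ConvexOn ℝ (Icc (0 : ℝ) 1)
        (fun t : ℝ => G n (x + t • v) + C / 2 * ‖x + t • v‖ ^ 2) := by
      refine convexOn_of_hasDerivWithinAt2_nonneg (convex_Icc _ _)
        (f' := fun t => (Lt ⋆[ContinuousLinearMap.lsmul ℝ ℝ, volume]
          (fun w => fderiv ℝ ψ w v) : ℂ → ℝ) (x + t • v) +
          C / 2 * (2 * inner ℝ x v + 2 * t * ‖v‖ ^ 2))
        (f'' := fun t => (Lt ⋆[ContinuousLinearMap.lsmul ℝ ℝ, volume] (fun w => fderiv ℝ (fun w' =>
          fderiv ℝ ψ w' v) w v) : ℂ → ℝ) (x + t • v) + C * ‖v‖ ^ 2) ?_ ?_ ?_ ?_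
      · intro t _
        exact ((hd1 t).add (hqd1 t)).continuousAt.continuousWithinAt
      · intro t _
        exact ((hd1 t).add (hqd1 t)).hasDerivWithinAt
      · intro t _
        exact ((hd2 t).add (hqd2 t)).hasDerivWithinAt
      · intro t ht
        rw [interior_Icc] at ht
        have hp : x + t • v ∈ ball z₁ ρ := by
          have h1 := (convex_ball z₁ ρ) hxρ hyρ (a := 1 - t) (b := t) (by linarith [ht.2])
            ht.1.le (by ring)
          have h2 : x + t • v = (1 - t) • x + t • y := by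
            rw [hv]
            module
          rw [h2]
          exact h1
        have h3 := hsecond n (x + t • v) hp v
        change 0 ≤ _ + C * ‖v‖ ^ 2
        linarith
    have h4 := hcx.2 (x := 0) ⟨le_rfl, zero_le_one⟩ (y := 1) ⟨zero_le_one, le_rfl⟩ ha hb hab
    simp only [smul_eq_mul, mul_zero, mul_one, zero_add, zero_smul, add_zero, one_smul] at h4
    have h5 : x + b • v = a • x + b • y := by
      have h6 : a = 1 - b := by linarith
      rw [hv, h6]
      module
    have h7 : x + v = y := by rw [hv]; ring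
    rw [h5, h7] at h4
    exact h4
  -- the limit
  have hz : a • x + b • y ∈ ball z₁ ρ := (convex_ball z₁ ρ) hxρ hyρ ha hb hab
  have hlim1 := (hG _ hz).add_const (C / 2 * ‖a • x + b • y‖ ^ 2)
  have hlim2 := (((hG _ hxρ).add_const (C / 2 * ‖x‖ ^ 2)).const_mul a).add
    (((hG _ hyρ).add_const (C / 2 * ‖y‖ ^ 2)).const_mul b)
  exact le_of_tendsto_of_tendsto' hlim1 hlim2 hconv

end W999.CQ
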